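import Pool.Agent.N943.NT.Basic

set_option autoImplicit false

/-!
# Childless vertices with disjoint neighbourhoods
-/

namespace N152.NT

open Finset N943.NT

open Classical in
/-- the neighbours of a vertex. -/
noncomputable def nb {V : Type} [Fintype V] (G : SimpleGraph V) (v : V) : Finset V :=
  univ.filter (fun w => G.Adj v w)

theorem mem_nb {V : Type} [Fintype V] {G : SimpleGraph V} {v w : V} : w ∈ nb G v ↔ G.Adj v w := by
  simp [nb]

theorem card_nb {V : Type} [Fintype V] {G : SimpleGraph V} (v : V) : (nb G v).card = dg G v := by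
  unfold dg
  rw [← Set.ncard_coe_finset]
  congr 1
  ext w
  rw [mem_coe, mem_nb]
  rfl

theorem exU : ExU := by
  classical
  intro V _ _ G r p D hRT hIn hN hD
  -- properties of the childless vertices
  have key : ∀ u ∈ nochild p, ch p u = ∅ ∧ u ≠ r ∧
      ∀ w, G.Adj u w → Anc p w (p u) := by
    intro u hu
    have hch : ch p u = ∅ := by
      have := hu
      simp only [nochild, mem_filter, mem_univ, true_and] at this
      exact this
    have hne : u ≠ r := by
      rintro rfl
      have h1 : 0 < (nb G u).card := by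
        rw [card_nb]
        have := (hD u).1
        omega
      obtain ⟨w, hw⟩ := card_pos.1 h1
      rw [mem_nb] at hw
      obtain ⟨x, hx, _⟩ := Anc.exists_child (hRT.anc_root w) hw.ne
      rw [hch] at hx
      exact absurd hx (notMem_empty x)
    refine ⟨hch, hne, fun w hw => ?_⟩
    rcases hN u w hw with h | h
    · obtain ⟨x, hx, _⟩ := Anc.exists_child h hw.ne
      rw [hch] at hx
      exact absurd hx (notMem_empty x)
    · rcases Anc.cases h with h1 | h1
      · exact absurd h1.symm hw.ne
      · exact h1
  have hab : ∀ u, ∃ ab : V × V, u ∈ nochild p → G.Adj u ab.1 ∧ G.Adj u ab.2 ∧ ab.1 ≠ ab.2 ∧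
      ab.1 ≠ p u ∧ ab.2 ≠ p u := by
    intro u
    have h1 : 1 < ((nb G u).erase (p u)).card := by
      have h2 := Finset.pred_card_le_card_erase (s := nb G u) (a := p u)
      have h3 := (hD u).1
      rw [card_nb] at h2
      omega
    obtain ⟨a, ha, b, hb, hne⟩ := one_lt_card.1 h1
    rw [mem_erase, mem_nb] at ha hb
    exact ⟨(a, b), fun _ => ⟨ha.2, hb.2, hne, ha.1, hb.1⟩⟩
  choose ab hab using hab
  -- a maximal set without conflicts
  let Q : Finset V → Prop := fun U => U ⊆ nochild p ∧
    ∀ u ∈ U, ∀ u' ∈ U, ∀ w, G.Adj u w → G.Adj u' w → u = u'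
  let P : Finset (Finset V) := univ.filter Q
  have hP : ∀ U, U ∈ P ↔ Q U := fun U => by simp [P]
  have hne : P.Nonempty := ⟨∅, (hP _).2 ⟨empty_subset _, fun u hu => absurd hu (notMem_empty u)⟩⟩
  obtain ⟨U, hU, hmax⟩ := exists_max_image P card hne
  rw [hP] at hU
  refine ⟨U, fun u => (ab u).1, fun u => (ab u).2, ⟨fun u hu => ?_, hU.2⟩, ?_⟩
  · obtain ⟨h1, h2, h3⟩ := key u (hU.1 hu)
    obtain ⟨h4, h5, h6, h7, h8⟩ := hab u (hU.1 hu)
    exact ⟨h1, h4, h5, h6, h7, h3 _ h4, h8, h3 _ h5⟩
  · have hcov : nochild p ⊆ U.biUnion fun u => (nb G u).biUnion fun w => nb G w := by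
      intro u hu
      rw [mem_biUnion]
      by_contra hcon
      push Not at hcon
      have hno : ∀ u' ∈ U, ∀ w, G.Adj u w → G.Adj u' w → False := by
        intro u' hu' w h1 h2
        apply hcon u' hu'
        rw [mem_biUnion]
        exact ⟨w, mem_nb.2 h2, mem_nb.2 h1.symm⟩
      have huU : u ∉ U := by
        intro huU
        obtain ⟨h4, _⟩ := hab u hu
        exact hno u huU _ h4 h4
      have hQ : Q (insert u U) := by
        refine ⟨insert_subset hu hU.1, fun x hx y hy w hxw hyw => ?_⟩
        rcases mem_insert.1 hx with h1 | h1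
        · rcases mem_insert.1 hy with h2 | h2
          · rw [h1, h2]
          · exact absurd hyw (fun h => hno y h2 w (h1 ▸ hxw) h)
        · rcases mem_insert.1 hy with h2 | h2
          · exact absurd hxw (fun h => hno x h1 w (h2 ▸ hyw) h)
          · exact hU.2 x h1 y h2 w hxw hyw
      have h1 := hmax _ ((hP _).2 hQ)
      rw [card_insert_of_notMem huU] at h1
      omega
    have h1 := card_le_card hcov
    have h2 : (U.biUnion fun u => (nb G u).biUnion fun w => nb G w).card ≤ U.card * D ^ 2 := by
      refine card_biUnion_le_card_mul _ _ _ fun u _ => ?_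
      have h3 : ((nb G u).biUnion fun w => nb G w).card ≤ (nb G u).card * D :=
        card_biUnion_le_card_mul _ _ _ fun w _ => by
          rw [card_nb]
          exact (hD w).2
      have h4 : (nb G u).card ≤ D := by
        rw [card_nb]
        exact (hD u).2
      calc ((nb G u).biUnion fun w => nb G w).card ≤ (nb G u).card * D := h3
        _ ≤ D * D := Nat.mul_le_mul_right D h4
        _ = D ^ 2 := (sq D).symm
    rw [mul_comm] at h2
    exact h1.trans h2

end N152.NT
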